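import Pool.Agent.UMG.StmtsB

/-!
# Squad UMG, block B, row IVB: invariance of PhB (MP_34c13a_lc)
-/

set_option autoImplicit false

namespace Pool.Agent.UMG.B.H69

open Finset Pool.Agent.UMG Pool.Agent.UMG.B

theorem qq_conj {V H V' H' : Type} (ν : H → V) (ν' : H' → V') (e : V ≃ V') (f : H ≃ H')
    (h1 : ∀ h, ν' (f h) = e (ν h)) (m : H → H) (v w : V) :
    QQ ν' (fun x => f (m (f.symm x))) (e v) (e w) = QQ ν m v w := by
  unfold QQ
  apply Nat.card_congr
  refine ⟨fun x => ⟨f.symm x.1, ?_, ?_⟩, fun x => ⟨f x.1, ?_, ?_⟩, fun x => ?_, fun x => ?_⟩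
  · have h2 := x.2.1
    have h3 := h1 (f.symm x.1)
    rw [Equiv.apply_symm_apply] at h3
    rw [h3] at h2
    exact e.injective h2
  · have h2 := x.2.2
    have h3 := h1 (m (f.symm x.1))
    have h4 : ν' (f (m (f.symm x.1))) = e w := h2
    rw [h3] at h4
    exact e.injective h4
  · rw [h1, x.2.1]
  · show ν' (f (m (f.symm (f x.1)))) = e w
    rw [Equiv.symm_apply_apply, h1, x.2.2]
  · apply Subtype.ext
    simp
  · apply Subtype.ext
    simp

theorem mt_conj {H H' : Type} {g : Equiv.Perm H} {g' : Equiv.Perm H'} (f : H ≃ H')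
    (h2 : ∀ h, f (g h) = g' (f h)) {m : H → H} (hm : IsMt g m) :
    IsMt g' (fun x => f (m (f.symm x))) := by
  have h3 : ∀ x, f.symm (g' x) = g (f.symm x) := by
    intro x
    rw [Equiv.symm_apply_eq, h2, Equiv.apply_symm_apply]
  refine ⟨fun x => ?_, fun x => ?_, fun x => ?_⟩
  · simp only [Equiv.symm_apply_apply, hm.inv, Equiv.apply_symm_apply]
  · intro h
    have h4 : m (f.symm x) = f.symm x := by
      rw [Equiv.eq_symm_apply]
      exact h
    exact hm.nfx _ h4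
  · show f (m (f.symm (g' x))) = g' (f (m (f.symm x)))
    rw [h3, hm.com, h2]

theorem ivb : IvbStmt := by
  intro n B V H V' H' ν g ν' g' hSI
  obtain ⟨e, f, h1, h2⟩ := hSI
  have h1' : ∀ x, ν (f.symm x) = e.symm (ν' x) := by
    intro x
    rw [Equiv.eq_symm_apply, ← h1, Equiv.apply_symm_apply]
  have h2' : ∀ x, f.symm (g' x) = g (f.symm x) := by
    intro x
    rw [Equiv.symm_apply_eq, h2, Equiv.apply_symm_apply]
  unfold PhB
  apply Nat.card_congr
  refine ⟨fun m => ⟨fun x => f (m.1 (f.symm x)), mt_conj f h2 m.2.1, ?_⟩,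
    fun m => ⟨fun x => f.symm (m.1 (f x)), ?_, ?_⟩, fun m => ?_, fun m => ?_⟩
  · obtain ⟨σ, hσ⟩ := m.2.2
    refine ⟨e.symm.trans σ, fun v w => ?_⟩
    have h3 := qq_conj ν ν' e f h1 m.1 (e.symm v) (e.symm w)
    rw [Equiv.apply_symm_apply, Equiv.apply_symm_apply] at h3
    rw [h3, hσ]
    rfl
  · have h3 := mt_conj f.symm h2' m.2.1
    exact h3
  · obtain ⟨σ, hσ⟩ := m.2.2
    refine ⟨e.trans σ, fun v w => ?_⟩
    have h3 := qq_conj ν' ν e.symm f.symm h1' m.1 (e v) (e w)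
    rw [Equiv.symm_apply_apply, Equiv.symm_apply_apply] at h3
    have h4 : QQ ν (fun x => f.symm (m.1 (f x))) v w = QQ ν' m.1 (e v) (e w) := h3
    rw [h4, hσ]
    rfl
  · apply Subtype.ext
    funext x
    simp
  · apply Subtype.ext
    funext x
    simp

end Pool.Agent.UMG.B.H69
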