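import Pool.Agent.UMG.StmtsA

/-!
# Squad UMG, row GRD: the dominating functional as a sum over the grid (MP_34c13a_lc)
-/

set_option autoImplicit false

namespace Pool.Agent.UMG.H69

open Finset Pool.Agent.UMG

theorem prod_exps (J : ℕ) (C : ℕ →₀ ℕ) (h0 : C 0 = 0) (hJ : ∀ i, J < i → C i = 0) (x : ℕ → ℝ) :
    ∏ i ∈ C.support, x i ^ C i = ∏ j ∈ range J, x (j + 1) ^ C (j + 1) := by
  have h1 : ∏ i ∈ C.support, x i ^ C i = ∏ i ∈ range (J + 1), x i ^ C i := by
    apply Finset.prod_subset
    · intro i hi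
      rw [Finsupp.mem_support_iff] at hi
      rw [mem_range]
      by_contra hcon
      exact hi (hJ i (by omega))
    · intro i _ hi
      rw [Finsupp.mem_support_iff, not_not] at hi
      rw [hi, pow_zero]
  rw [h1, prod_range_succ' (fun i => x i ^ C i) J, h0, pow_zero, mul_one]

theorem grd (hDGT : DgtStmt) : GrdStmt := by
  intro M K p hp
  have hR : ∀ g ∈ range ((M + 1) ^ K), ctp M K g * MvPolynomial.eval (fg M K g) p =
      ∑ C ∈ p.support, ctp M K g * (p.coeff C *
        ∏ j ∈ range (K + M), fg M K g (j + 1) ^ C (j + 1)) := by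
    intro g _
    rw [MvPolynomial.eval_eq, mul_sum]
    apply sum_congr rfl
    intro C hC
    rw [prod_exps (K + M) C (hp C hC).1 (hp C hC).2]
  rw [sum_congr rfl hR, sum_comm]
  unfold Phi
  apply sum_congr rfl
  intro C hC
  have h2 : ∀ g, ∏ j ∈ range (K + M), fg M K g (j + 1) ^ C (j + 1) =
      (∏ j ∈ range K, sq M (j + 1) (dg M g j + 1) ^ C (j + 1)) *
        ∏ j ∈ range M, (be M : ℝ) ^ C (K + j + 1) := by
    intro g
    rw [prod_range_add]
    refine congrArg₂ (fun a b => a * b) ?_ ?_
    · apply prod_congr rfl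
      intro j hj
      rw [mem_range] at hj
      unfold fg fld
      rw [if_pos (by omega)]
      simp only [Nat.add_sub_cancel]
    · apply prod_congr rfl
      intro j _
      unfold fg fld
      rw [if_neg (by omega)]
  have h3 : ∀ g ∈ range ((M + 1) ^ K), ctp M K g * (p.coeff C *
      ∏ j ∈ range (K + M), fg M K g (j + 1) ^ C (j + 1)) =
      (p.coeff C * ∏ j ∈ range M, (be M : ℝ) ^ C (K + j + 1)) *
        ∏ j ∈ range K, (fun j b => ct M (j + 1) b * sq M (j + 1) (b + 1) ^ C (j + 1)) j
          (dg M g j) := by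
    intro g _
    rw [h2, prod_mul_distrib]
    unfold ctp
    ring
  rw [sum_congr rfl h3, ← mul_sum,
    hDGT M K (fun j b => ct M (j + 1) b * sq M (j + 1) (b + 1) ^ C (j + 1))]
  have h4 : ∏ j ∈ range (K + M), G M K (j + 1) (C (j + 1)) =
      (∏ j ∈ range K, Gr M (j + 1) (C (j + 1))) *
        ∏ j ∈ range M, (be M : ℝ) ^ C (K + j + 1) := by
    rw [prod_range_add]
    refine congrArg₂ (fun a b => a * b) ?_ ?_
    · apply prod_congr rfl
      intro j hj
      rw [mem_range] at hj
      unfold G
      rw [if_pos (by omega)]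
    · apply prod_congr rfl
      intro j _
      unfold G
      rw [if_neg (by omega)]
  rw [h4]
  unfold Gr
  ring

end Pool.Agent.UMG.H69
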