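import Pool.Agent.UMG.StmtsD

/-!
# Squad UMG, row HIT: the number of the leaves with a given matching (MP_34c13a_lc)
-/

set_option autoImplicit false

namespace Pool.Agent.UMG.H69D

open Finset Pool.Agent.UMG

theorem sum_mod (m V : ℕ) (Ψ : ℕ → ℕ) :
    ∑ z ∈ range (m * V), Ψ (z % V) = m * ∑ z ∈ range V, Ψ z := by
  induction m with
  | zero => simp
  | succ m ih =>
    rw [Nat.succ_mul, Finset.sum_range_add, ih, Nat.succ_mul]
    congr 1
    apply sum_congr rfl
    intro z hz
    rw [mem_range] at hz
    rw [Nat.add_comm, Nat.add_mul_mod_self_right, Nat.mod_eq_of_lt hz]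

open Classical in
/-- the indicator function of the leaves with the matching `x` -/
noncomputable def psi (M K : ℕ) (c : Code) (x : Fin M → ℕ) (j y : ℕ) : ℕ :=
  if y < scl M K c j * F (j + 1) (cnt c (j + 1)) ∧
      (∀ h : j < M, y % F (j + 1) (cnt c (j + 1)) = x ⟨j, h⟩) then 1 else 0

theorem key (M K : ℕ) (c : Code) (Φ : (ℕ → ℕ) → ℕ)
    (hΦ : ∀ x x' : ℕ → ℕ, (∀ j, 1 ≤ j → j ≤ M → x j = x' j) → Φ x = Φ x') (g z : ℕ) :
    (if acc M K g c z then Φ (ix M K g c z) else 0) =
      ∑ x ∈ Xs M c, Φ (ex x) * ∏ j ∈ range (K + M), psi M K c x j (yy M K g c z j) := by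
  classical
  by_cases ha : acc M K g c z
  · rw [if_pos ha]
    have hpos : ∀ j < K + M, 0 < F (j + 1) (cnt c (j + 1)) := by
      intro j hj
      have h1 := ha j hj
      by_contra h
      have h0 : F (j + 1) (cnt c (j + 1)) = 0 := by omega
      rw [h0, mul_zero] at h1
      omega
    have hx0 : (fun j : Fin M => yy M K g c z j % F ((j : ℕ) + 1) (cnt c ((j : ℕ) + 1))) ∈
        Xs M c := by
      unfold Xs
      rw [Fintype.mem_piFinset]
      intro j
      rw [mem_range]
      exact Nat.mod_lt _ (hpos j (by omega))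
    rw [Finset.sum_eq_single
      (fun j : Fin M => yy M K g c z j % F ((j : ℕ) + 1) (cnt c ((j : ℕ) + 1)))]
    · have h1 : ∏ j ∈ range (K + M), psi M K c
          (fun j : Fin M => yy M K g c z j % F ((j : ℕ) + 1) (cnt c ((j : ℕ) + 1))) j
          (yy M K g c z j) = 1 := by
        apply prod_eq_one
        intro j hj
        unfold psi
        rw [if_pos]
        exact ⟨ha j (mem_range.1 hj), fun h => rfl⟩
      rw [h1, mul_one]
      apply hΦ
      intro j hj1 hjM
      obtain ⟨i, rfl⟩ : ∃ i, j = i + 1 := ⟨j - 1, by omega⟩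
      unfold ix ex
      rw [dif_pos (by omega)]
      rfl
    · intro x _ hne
      obtain ⟨j, hj⟩ := Function.ne_iff.1 hne
      have h1 : ∏ j ∈ range (K + M), psi M K c x j (yy M K g c z j) = 0 := by
        apply prod_eq_zero (i := (j : ℕ)) (mem_range.2 (by omega))
        unfold psi
        rw [if_neg]
        intro h
        exact hj (h.2 j.2).symm
      rw [h1, mul_zero]
    · intro h
      exact absurd hx0 h
  · rw [if_neg ha]
    symm
    apply sum_eq_zero
    intro x _
    unfold acc at ha
    push Not at ha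
    obtain ⟨j, hj, hj2⟩ := ha
    have h1 : ∏ j ∈ range (K + M), psi M K c x j (yy M K g c z j) = 0 := by
      apply prod_eq_zero (i := j) (mem_range.2 hj)
      unfold psi
      rw [if_neg]
      intro h
      omega
    rw [h1, mul_zero]

theorem hit (hYPR : YprStmt) (hZLE : ZleStmt) (hCDV : CdvStmt) (hSCP : ScpStmt) : HitStmt := by
  classical
  intro K d c Φ hc hΦ
  have h1 : ∀ g ∈ range ((d.sum + 1) ^ K),
      ∑ z ∈ range (∏ j ∈ range (K + d.sum), YB d.sum K g c j),
        (if acc d.sum K g c z then Φ (ix d.sum K g c z) else 0) =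
      ∑ x ∈ Xs d.sum c, Φ (ex x) * ∑ z ∈ range (∏ j ∈ range (K + d.sum), YB d.sum K g c j),
        ∏ j ∈ range (K + d.sum), psi d.sum K c x j (yy d.sum K g c z j) := by
    intro g _
    rw [sum_congr rfl (fun z _ => key d.sum K c Φ hΦ g z), sum_comm]
    apply sum_congr rfl
    intro x _
    rw [mul_sum]
  rw [sum_congr rfl h1, sum_comm, mul_sum]
  apply sum_congr rfl
  intro x hx
  rw [← mul_sum, hYPR d.sum K c (psi d.sum K c x), mul_comm]
  refine congrArg (fun t => t * Φ (ex x)) ?_
  rw [← hSCP K d c hc]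
  apply prod_congr rfl
  intro j hj
  rw [mem_range] at hj
  have hle := hZLE K d c j hc
  -- restrict to `y < Z j`
  have h2 : ∑ y ∈ range (Yt d.sum K c j), psi d.sum K c x j y =
      ∑ y ∈ range (scl d.sum K c j * F (j + 1) (cnt c (j + 1))), psi d.sum K c x j y := by
    symm
    apply sum_subset
    · intro y hy
      rw [mem_range] at hy ⊢
      omega
    · intro y _ hy
      rw [mem_range] at hy
      unfold psi
      rw [if_neg]
      intro h
      exact hy h.1
  rw [h2]
  by_cases hjM : j < d.sum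
  · have hxj : x ⟨j, hjM⟩ < F (j + 1) (cnt c (j + 1)) := by
      unfold Xs at hx
      rw [Fintype.mem_piFinset] at hx
      have := hx ⟨j, hjM⟩
      rw [mem_range] at this
      exact this
    have h3 : ∀ y ∈ range (scl d.sum K c j * F (j + 1) (cnt c (j + 1))),
        psi d.sum K c x j y =
          (fun t => if t = x ⟨j, hjM⟩ then 1 else 0) (y % F (j + 1) (cnt c (j + 1))) := by
      intro y hy
      rw [mem_range] at hy
      unfold psi
      by_cases h : y % F (j + 1) (cnt c (j + 1)) = x ⟨j, hjM⟩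
      · simp only [h, if_true]
        rw [if_pos]
        exact ⟨hy, fun _ => trivial⟩
      · rw [if_neg (fun h' => h (h'.2 hjM))]
        simp only [if_neg h]
    rw [sum_congr rfl h3]
    refine (sum_mod (scl d.sum K c j) (F (j + 1) (cnt c (j + 1)))
      (fun t => if t = x ⟨j, hjM⟩ then 1 else 0)).trans ?_
    rw [Finset.sum_ite_eq' (range (F (j + 1) (cnt c (j + 1)))) (x ⟨j, hjM⟩) (fun _ => 1),
      if_pos (mem_range.2 hxj), mul_one]
  · have h3 : cnt c (j + 1) = 0 := (hCDV d c hc).2.2.2.1 (j + 1) (by omega)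
    have h4 : ∀ y ∈ range (scl d.sum K c j * F (j + 1) (cnt c (j + 1))),
        psi d.sum K c x j y = 1 := by
      intro y hy
      rw [mem_range] at hy
      unfold psi
      rw [if_pos]
      exact ⟨hy, fun h => absurd h hjM⟩
    rw [sum_congr rfl h4, sum_const, card_range, h3]
    show (scl d.sum K c j * F (j + 1) 0) • 1 = _
    have h5 : F (j + 1) 0 = 1 := by
      unfold F
      rfl
    rw [h5]
    simp

end Pool.Agent.UMG.H69D
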